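import Pool.Agent.H31.LD.Fin

set_option autoImplicit false

/-!
Site percolation on `Z^d`, `d ≥ 2` (so `3 ≤ d ≤ 10` is included), and the same model with
additional random long bonds on one single line, the first coordinate axis: two points of the axis
at distance `k` are joined by a long bond with probability `1 - exp (-β k^(-s))`, `1 < s < 2`.

For all strengths `β > 0` of this line defect with at most one exception, in particular for all
small ones, there is no percolation at the critical point of the model with the defect; this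
critical point tends to the critical point `p_c` of `Z^d` as `β` tends to zero; and the percolation
probability of `Z^d` at `p_c` is the limit, as `β` tends to zero, of the percolation probability
of the model with the defect just below `p_c`.
-/

open MeasureTheory Set Filter
open scoped Topology NNReal

namespace Pool.Agent.Results.MP_e13933_pr.WeakLineDefects

noncomputable section

/-- The vertices of `Z^d`. -/
abbrev V (d : ℕ) : Type := Fin d → ℤ

/-- The point with number `i` of the first coordinate axis. -/
def ax {d : ℕ} (i : ℤ) : V d := fun k => if (k : ℕ) = 0 then i else 0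

/-- The law of a coin: `true` has probability `q`. -/
def coin (q : unitInterval) : Measure Bool :=
  ENNReal.ofReal (q : ℝ) • Measure.dirac true + ENNReal.ofReal (1 - (q : ℝ)) • Measure.dirac false

/-- The open graph of site percolation on `Z^d`: nearest neighbours, both open. -/
def siteGraph {d : ℕ} (σ : V d → Bool) : SimpleGraph (V d) where
  Adj x y := ∑ i, |x i - y i| = 1 ∧ σ x = true ∧ σ y = true
  symm := ⟨fun x y ⟨h1, h2, h3⟩ => ⟨by simpa only [abs_sub_comm] using h1, h3, h2⟩⟩
  loopless := ⟨fun x h => by simpa using h.1⟩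

/-- The percolation probability of site percolation on `Z^d` with density `p`. -/
def theta0 (d : ℕ) (p : unitInterval) : ℝ :=
  (Measure.infinitePi fun _ : V d => coin p).real {σ | {y | (siteGraph σ).Reachable 0 y}.Infinite}

/-- The supremum of the densities at which the function `f` vanishes. -/
def sup0 (f : unitInterval → ℝ) : unitInterval :=
  ⟨sSup {x : ℝ | ∃ q : unitInterval, (q : ℝ) = x ∧ f q = 0}, by
    constructor
    · apply Real.sSup_nonneg
      rintro x ⟨q, rfl, _⟩
      exact q.2.1
    · apply Real.sSup_le
      · rintro x ⟨q, rfl, _⟩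
        exact q.2.2
      · exact zero_le_one⟩

/-- The critical point of site percolation on `Z^d`. -/
def pc0 (d : ℕ) : unitInterval := sup0 (theta0 d)

/-- The length of a bond between two points of the axis. -/
def len (e : Sym2 ℤ) : ℕ :=
  Sym2.lift ⟨fun x y : ℤ => (x - y).natAbs, fun x y => by
    show (x - y).natAbs = (y - x).natAbs
    omega⟩ e

/-- The probability `1 - exp (-β k^(-s))` that the long bond `e` of length `k` is open. -/
def longProb (β : ℝ≥0) (s : ℝ) (e : Sym2 ℤ) : unitInterval :=
  ⟨1 - Real.exp (-((β : ℝ) * ((len e : ℕ) : ℝ) ^ (-s))), by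
    have h : 0 ≤ (β : ℝ) * ((len e : ℕ) : ℝ) ^ (-s) :=
      mul_nonneg β.2 (Real.rpow_nonneg (Nat.cast_nonneg _) _)
    constructor
    · rw [sub_nonneg]
      exact Real.exp_le_one_iff.mpr (by linarith)
    · linarith [Real.exp_pos (-((β : ℝ) * ((len e : ℕ) : ℝ) ^ (-s)))]⟩

/-- The law of the model with the line defect: all sites are open with probability `p`, the long
bond between the points `i` and `j` of the axis with probability `longProb β s s(i, j)`, and
everything is independent. -/
def P (d : ℕ) (s : ℝ) (β : ℝ≥0) (p : unitInterval) : Measure (V d ⊕ Sym2 ℤ → Bool) :=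
  Measure.infinitePi fun c => coin (Sum.elim (fun _ => p) (longProb β s) c)

/-- The open graph of the model with the line defect: two different open sites are adjacent if they
are nearest neighbours, or if they are points `i` and `j` of the axis and the long bond between
these points is open. -/
def openGraph {d : ℕ} (ω : V d ⊕ Sym2 ℤ → Bool) : SimpleGraph (V d) where
  Adj x y := x ≠ y ∧ ω (Sum.inl x) = true ∧ ω (Sum.inl y) = true ∧
    (∑ i, |x i - y i| = 1 ∨ ∃ i j : ℤ, x = ax i ∧ y = ax j ∧ ω (Sum.inr s(i, j)) = true)
  symm := ⟨fun x y ⟨h1, h2, h3, h4⟩ => ⟨h1.symm, h3, h2, by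
    rcases h4 with h4 | ⟨i, j, h5, h6, h7⟩
    · exact Or.inl (by simpa only [abs_sub_comm] using h4)
    · exact Or.inr ⟨j, i, h6, h5, by rwa [Sym2.eq_swap]⟩⟩⟩
  loopless := ⟨fun x h => h.1 rfl⟩

/-- The percolation probability of the model with the line defect. -/
def theta (d : ℕ) (s : ℝ) (β : ℝ≥0) (p : unitInterval) : ℝ :=
  (P d s β p).real {ω | {y | (openGraph ω).Reachable 0 y}.Infinite}

/-- The critical point of the model with the line defect. -/
def pc (d : ℕ) (s : ℝ) (β : ℝ≥0) : unitInterval := sup0 (theta d s β)

lemma siteGraph_eq {d : ℕ} (σ : V d → Bool) : siteGraph σ = Pool.Agent.H31.LD.Gs σ := by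
  ext x y
  rw [Pool.Agent.H31.LD.Gs_adj]
  rfl

lemma theta0_eq (d : ℕ) : theta0 d = Pool.Agent.Y990.CB.th (Pool.Agent.Y990.CB.siteM d) := by
  funext p
  unfold theta0
  simp only [siteGraph_eq]
  rfl

lemma pc0_eq (d : ℕ) : pc0 d = Pool.Agent.Y990.CB.pc (Pool.Agent.Y990.CB.siteM d) := by
  unfold pc0 sup0 Pool.Agent.Y990.CB.pc
  simp only [theta0_eq]

lemma theta_eq (d : ℕ) (s : ℝ) (β : ℝ≥0) (p : unitInterval) :
    theta d s β p = Pool.Agent.H31.LD.tl (Pool.Agent.H31.LD.prm d p β s) := rfl

lemma pc_eq (d : ℕ) (s : ℝ) (β : ℝ≥0) : pc d s β = Pool.Agent.H31.LD.pl d s β := rfl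

/-- **Continuity of the percolation transition of `Z^d` with a weak line defect, and the jump of
the percolation probability of `Z^d`.**  Let `d ≥ 2` and `1 < s < 2`.

* The critical point `pc d s β` of the model with long bonds of strength `β` on the first
coordinate axis is positive, at most the critical point `pc0 d` of `Z^d`, and tends to `pc0 d` as
`β` tends to `0`.
* For at most one `β > 0` there is percolation at the critical point `pc d s β`; in particular there
is none for all small `β > 0`.
* The percolation probability of `Z^d` at `pc0 d` is the limit, as `β` decreases to `0`, of the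
supremum over `p < pc0 d` of the percolation probability of the model with the defect. -/
theorem result (d : ℕ) (hd : 2 ≤ d) (s : ℝ) (hs : 1 < s) (hs2 : s < 2) :
    (∀ β : ℝ≥0, 0 < pc d s β ∧ pc d s β ≤ pc0 d) ∧
    Tendsto (fun β : ℝ≥0 => pc d s β) (𝓝 0) (𝓝 (pc0 d)) ∧
    {β : ℝ≥0 | 0 < β ∧ theta d s β (pc d s β) ≠ 0}.Subsingleton ∧
    (∃ b : ℝ≥0, 0 < b ∧ ∀ β : ℝ≥0, 0 < β → β < b → theta d s β (pc d s β) = 0) ∧
    Tendsto (fun β : ℝ≥0 => ⨆ p : {p : unitInterval // p < pc0 d}, theta d s β p) (𝓝[>] 0)
      (𝓝 (theta0 d (pc0 d))) := by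
  rw [pc0_eq, theta0_eq]
  exact ⟨fun β => ⟨Pool.Agent.H31.LD.pl_pos (by omega) hs β, Pool.Agent.H31.LD.pl_le s β⟩,
    Pool.Agent.H31.LD.pl_tendsto hd hs hs2, Pool.Agent.H31.LD.exc hd hs hs2,
    Pool.Agent.H31.LD.exc_small hd hs hs2, Pool.Agent.H31.LD.jump (by omega) s hs hs2⟩

end

end Pool.Agent.Results.MP_e13933_pr.WeakLineDefects
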